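import Mathlib
import Pool.Agent.X119.ExpDimB

set_option autoImplicit false

namespace Pool.Agent.Results.MP_098a03_an.PositiveDimension

open Filter Topology Set TopologicalSpace Metric
open scoped Pointwise ENNReal

/-- The Minkowski sum `∑_{i<n} (1/i!) K^{(i)}`, where `K ^ i` is the `i`-fold Minkowski product. -/
noncomputable def minkSum (K : Set ℝ) (n : ℕ) : Set ℝ :=
  ∑ i ∈ Finset.range n, ((i.factorial : ℝ)⁻¹) • K ^ i

/-- `E` is the limit, in the Hausdorff metric, of the Minkowski sums; that is, `E = exp(K)`. -/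
def IsExp (K : Set ℝ) (E : NonemptyCompacts ℝ) : Prop :=
  Tendsto (fun n => hausdorffEDist (minkSum K n) (E : Set ℝ)) atTop (𝓝 0)

/-- A nonempty compact subset of `[0,1]`, as a set of real numbers. -/
def toReal (K : NonemptyCompacts (Icc (0:ℝ) 1)) : Set ℝ := Subtype.val '' (K : Set (Icc (0:ℝ) 1))

/-- all sums of the series with terms chosen in the Minkowski powers -/
def sums (K : Set ℝ) : Set ℝ :=
  {x | ∃ y : ℕ → ℝ, (∀ i, y i ∈ K ^ i) ∧ HasSum (fun i => y i / (i.factorial : ℝ)) x}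

lemma pow_sub {K : Set ℝ} (hK : K ⊆ Icc 0 1) (i : ℕ) : K ^ i ⊆ Icc (0:ℝ) 1 := by
  induction i with
  | zero =>
    rw [pow_zero]
    intro x hx
    rw [Set.mem_one] at hx
    rw [hx]; constructor <;> norm_num
  | succ i ih =>
    rw [pow_succ]
    intro x hx
    obtain ⟨a, ha, b, hb, rfl⟩ := Set.mem_mul.mp hx
    have h1 := ih ha
    have h2 := hK hb
    exact ⟨mul_nonneg h1.1 h2.1, mul_le_one₀ h1.2 h2.1 h2.2⟩

lemma pow_compact {K : Set ℝ} (hK : IsCompact K) (i : ℕ) : IsCompact (K ^ i) := by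
  induction i with
  | zero => rw [pow_zero]; exact isCompact_singleton
  | succ i ih => rw [pow_succ]; exact ih.mul hK

lemma term_le {K : Set ℝ} (hK : K ⊆ Icc 0 1) (i : ℕ) (y : ℝ) (hy : y ∈ K ^ i) :
    ‖y / (i.factorial : ℝ)‖ ≤ 1 / (i.factorial : ℝ) := by
  have h1 := pow_sub hK i hy
  rw [Real.norm_eq_abs, abs_of_nonneg (div_nonneg h1.1 (by positivity))]
  exact div_le_div_of_nonneg_right h1.2 (by positivity)

lemma sum_fact : Summable (fun i : ℕ => 1 / (i.factorial : ℝ)) := by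
  have := Real.summable_pow_div_factorial 1
  simpa using this

lemma sums_compact {K : Set ℝ} (hK : K ⊆ Icc 0 1) (hc : IsCompact K) : IsCompact (sums K) := by
  have h1 : sums K = (fun y : ℕ → ℝ => ∑' i, y i / (i.factorial : ℝ)) '' (Set.univ.pi (fun i => K ^ i)) := by
    ext x
    constructor
    · rintro ⟨y, hy, hs⟩
      exact ⟨y, fun i _ => hy i, hs.tsum_eq⟩
    · rintro ⟨y, hy, rfl⟩
      refine ⟨y, fun i => hy i (mem_univ i), Summable.hasSum ?_⟩
      exact Summable.of_norm_bounded sum_fact (fun i => term_le hK i _ (hy i (mem_univ i)))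
  rw [h1]
  apply (isCompact_univ_pi (fun i => pow_compact hc i)).image_of_continuousOn
  apply continuousOn_tsum (u := fun i => 1 / (i.factorial : ℝ))
  · intro i
    exact ((continuous_apply i).div_const _).continuousOn
  · exact sum_fact
  · intro i y hy
    exact term_le hK i _ (hy i (mem_univ i))

lemma sums_nonempty {K : Set ℝ} (hK : K ⊆ Icc 0 1) (hne : K.Nonempty) : (sums K).Nonempty := by
  obtain ⟨x, hx⟩ := hne
  have hy : ∀ i, x ^ i ∈ K ^ i := fun i => Set.pow_mem_pow hx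
  exact ⟨_, fun i => x ^ i, hy, (Summable.of_norm_bounded sum_fact
    (fun i => term_le hK i _ (hy i))).hasSum⟩

/-- `exp(K)` -/
noncomputable def expK (K : Set ℝ) (hK : K ⊆ Icc 0 1) (hc : IsCompact K) (hne : K.Nonempty) :
    NonemptyCompacts ℝ := ⟨⟨sums K, sums_compact hK hc⟩, sums_nonempty hK hne⟩

lemma tail_bound {K : Set ℝ} (hK : K ⊆ Icc 0 1) (y : ℕ → ℝ) (hy : ∀ i, y i ∈ K ^ i) (x : ℝ)
    (hx : HasSum (fun i => y i / (i.factorial : ℝ)) x) (n : ℕ) :
    edist (∑ i ∈ Finset.range n, y i / (i.factorial : ℝ)) x ≤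
      ENNReal.ofReal (∑' i, 1 / ((i + n).factorial : ℝ)) := by
  rw [edist_dist]
  apply ENNReal.ofReal_le_ofReal
  rw [dist_comm, Real.dist_eq, ← hx.tsum_eq, ← hx.summable.sum_add_tsum_nat_add n, add_sub_cancel_left]
  have h1 : Summable (fun i : ℕ => 1 / ((i + n).factorial : ℝ)) := (summable_nat_add_iff n).mpr sum_fact
  have := tsum_of_norm_bounded (f := fun i => y (i + n) / ((i + n).factorial : ℝ)) h1.hasSum
    (fun i => term_le hK (i + n) _ (hy _))
  rwa [Real.norm_eq_abs] at this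

lemma isExp_expK (K : Set ℝ) (hK : K ⊆ Icc 0 1) (hc : IsCompact K) (hne : K.Nonempty) :
    IsExp K (expK K hK hc hne) := by
  have hlim : Tendsto (fun n : ℕ => ENNReal.ofReal (∑' i, 1 / ((i + n).factorial : ℝ))) atTop (𝓝 0) := by
    have h1 : Tendsto (fun n : ℕ => ∑' i, 1 / ((i + n).factorial : ℝ)) atTop (𝓝 0) :=
      tendsto_sum_nat_add (fun i : ℕ => 1 / (i.factorial : ℝ))
    have := ENNReal.tendsto_ofReal h1
    rwa [ENNReal.ofReal_zero] at this
  refine tendsto_of_tendsto_of_tendsto_of_le_of_le tendsto_const_nhds hlim (fun _ => zero_le) ?_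
  intro n
  apply hausdorffEDist_le_of_mem_edist
  · intro x hx
    unfold minkSum at hx
    obtain ⟨g, hg, rfl⟩ := (Set.mem_finsetSum _ _ _).mp hx
    obtain ⟨p, hp⟩ := hne
    have h1 : ∀ i, ∃ y ∈ K ^ i, i < n → g i = y / (i.factorial : ℝ) := by
      intro i
      by_cases hi : i < n
      · obtain ⟨y, hy, hgy⟩ := Set.mem_smul_set.mp (hg (Finset.mem_range.mpr hi))
        exact ⟨y, hy, fun _ => by rw [← hgy, smul_eq_mul]; ring⟩
      · exact ⟨p ^ i, Set.pow_mem_pow hp, fun h => absurd h hi⟩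
    choose y hy hyg using h1
    have hsum : Summable (fun i => y i / (i.factorial : ℝ)) :=
      Summable.of_norm_bounded sum_fact (fun i => term_le hK i _ (hy i))
    refine ⟨_, ⟨y, hy, hsum.hasSum⟩, ?_⟩
    have h2 : ∑ i ∈ Finset.range n, g i = ∑ i ∈ Finset.range n, y i / (i.factorial : ℝ) :=
      Finset.sum_congr rfl fun i hi => hyg i (Finset.mem_range.mp hi)
    rw [h2]
    exact tail_bound hK y hy _ hsum.hasSum n
  · rintro x ⟨y, hy, hs⟩
    refine ⟨∑ i ∈ Finset.range n, y i / (i.factorial : ℝ), ?_, ?_⟩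
    · unfold minkSum
      refine (Set.mem_finsetSum _ _ _).mpr ⟨fun i => y i / (i.factorial : ℝ), fun {i} _ => ?_, rfl⟩
      refine Set.mem_smul_set.mpr ⟨y i, hy i, ?_⟩
      rw [smul_eq_mul]; ring
    · rw [edist_comm]
      exact tail_bound hK y hy x hs n

lemma isExp_unique {K : Set ℝ} {E E' : NonemptyCompacts ℝ} (h : IsExp K E) (h' : IsExp K E') :
    E = E' := by
  have h1 : Tendsto (fun n => hausdorffEDist (minkSum K n) (E : Set ℝ) +
      hausdorffEDist (minkSum K n) (E' : Set ℝ)) atTop (𝓝 (0 + 0)) := h.add h'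
  rw [add_zero] at h1
  have h2 : edist E E' ≤ 0 := by
    apply ge_of_tendsto' h1
    intro n
    change hausdorffEDist (E : Set ℝ) (E' : Set ℝ) ≤ _
    rw [hausdorffEDist_comm (s := minkSum K n) (t := (E : Set ℝ))]
    exact hausdorffEDist_triangle
  exact edist_le_zero.mp h2

lemma dim_sums {K : Set ℝ} (hK : K ⊆ Icc 0 1) {x1 x2 : ℝ} (m1 : x1 ∈ K) (m2 : x2 ∈ K)
    (h2 : 0 < x2) (h12 : x2 < x1) : 0 < dimH (sums K) := by
  refine (Pool.Agent.X119.ExpDim.two_point x1 x2 h2 h12 (hK m1).2).trans_le (dimH_mono ?_)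
  rintro x ⟨l, hl, hs⟩
  refine ⟨fun i => x1 ^ (i - l i) * x2 ^ (l i), fun i => ?_, hs⟩
  have : K ^ i = K ^ (i - l i) * K ^ (l i) := by
    rw [← pow_add, Nat.sub_add_cancel (hl i)]
  rw [this]
  exact Set.mul_mem_mul (Set.pow_mem_pow m1) (Set.pow_mem_pow m2)

lemma toReal_sub (K : NonemptyCompacts (Icc (0:ℝ) 1)) : toReal K ⊆ Icc 0 1 := by
  rintro _ ⟨x, _, rfl⟩
  exact x.2

lemma toReal_compact (K : NonemptyCompacts (Icc (0:ℝ) 1)) : IsCompact (toReal K) :=
  K.isCompact.image continuous_subtype_val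

lemma toReal_nonempty (K : NonemptyCompacts (Icc (0:ℝ) 1)) : (toReal K).Nonempty :=
  K.nonempty.image _

/-- the compact sets containing two distinct nonzero points -/
def good : Set (NonemptyCompacts (Icc (0:ℝ) 1)) :=
  {K | ∃ x ∈ K, ∃ y ∈ K, (0:ℝ) < (x:ℝ) ∧ (x:ℝ) < y}

lemma good_open : IsOpen good := by
  rw [Metric.isOpen_iff]
  rintro K ⟨x, hx, y, hy, h0, hxy⟩
  set δ := min (x:ℝ) ((y:ℝ) - x) / 2 with hδ
  have hδ0 : 0 < δ := by
    have : 0 < min (x:ℝ) ((y:ℝ) - x) := lt_min h0 (by linarith)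
    positivity
  have hδ1 : δ ≤ (x:ℝ) / 2 := by
    have := min_le_left (x:ℝ) ((y:ℝ) - x)
    rw [hδ]; linarith
  have hδ2 : δ ≤ ((y:ℝ) - x) / 2 := by
    have := min_le_right (x:ℝ) ((y:ℝ) - x)
    rw [hδ]; linarith
  refine ⟨δ, hδ0, fun K' hK' => ?_⟩
  rw [Metric.mem_ball, dist_comm, NonemptyCompacts.dist_eq] at hK'
  have hfin : hausdorffEDist (K : Set (Icc (0:ℝ) 1)) (K' : Set (Icc (0:ℝ) 1)) ≠ ⊤ :=
    hausdorffEDist_ne_top_of_nonempty_of_bounded K.nonempty K'.nonempty K.isCompact.isBounded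
      K'.isCompact.isBounded
  obtain ⟨x', hx', hdx⟩ := exists_dist_lt_of_hausdorffDist_lt (SetLike.mem_coe.mpr hx) hK' hfin
  obtain ⟨y', hy', hdy⟩ := exists_dist_lt_of_hausdorffDist_lt (SetLike.mem_coe.mpr hy) hK' hfin
  rw [Subtype.dist_eq, Real.dist_eq, abs_lt] at hdx hdy
  refine ⟨x', hx', y', hy', ?_, ?_⟩ <;> linarith [hdx.1, hdx.2, hdy.1, hdy.2]

lemma good_dense : Dense good := by
  intro K
  rw [Metric.mem_closure_iff]
  intro ε hε
  obtain ⟨p, hp⟩ := K.nonempty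
  obtain ⟨a, b, ha, hab, hpa, hpb⟩ : ∃ a b : Icc (0:ℝ) 1, (0:ℝ) < (a:ℝ) ∧ (a:ℝ) < b ∧
      dist a p ≤ ε / 2 ∧ dist b p ≤ ε / 2 := by
    set δ := min (ε / 2) (1 / 2) with hδ
    have hδ0 : 0 < δ := lt_min (by positivity) (by norm_num)
    have hδ1 : δ ≤ ε / 2 := min_le_left _ _
    have hδ2 : δ ≤ 1 / 2 := min_le_right _ _
    have hp0 : (0:ℝ) ≤ p := p.2.1
    have hp1 : (p:ℝ) ≤ 1 := p.2.2
    rcases le_or_gt (p:ℝ) (1 / 2) with h | h
    · refine ⟨⟨(p:ℝ) + δ / 2, by linarith, by linarith⟩, ⟨(p:ℝ) + δ, by linarith, by linarith⟩,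
        ?_, ?_, ?_, ?_⟩
      · change (0:ℝ) < (p:ℝ) + δ / 2
        linarith
      · change (p:ℝ) + δ / 2 < (p:ℝ) + δ
        linarith
      · rw [Subtype.dist_eq, Real.dist_eq, add_sub_cancel_left, abs_of_pos (by positivity)]
        linarith
      · rw [Subtype.dist_eq, Real.dist_eq, add_sub_cancel_left, abs_of_pos (by positivity)]
        linarith
    · refine ⟨⟨(p:ℝ) - δ / 2, by linarith, by linarith⟩, p, ?_, ?_, ?_, ?_⟩
      · change (0:ℝ) < (p:ℝ) - δ / 2
        linarith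
      · change (p:ℝ) - δ / 2 < (p:ℝ)
        linarith
      · rw [Subtype.dist_eq, Real.dist_eq, sub_sub_cancel_left, abs_neg, abs_of_pos (by positivity)]
        linarith
      · rw [dist_self]; positivity
  refine ⟨K ⊔ ({a} ⊔ {b}), ⟨a, ?_, b, ?_, ha, hab⟩, ?_⟩
  · rw [← SetLike.mem_coe, NonemptyCompacts.coe_sup, NonemptyCompacts.coe_sup]
    right; left
    simp
  · rw [← SetLike.mem_coe, NonemptyCompacts.coe_sup, NonemptyCompacts.coe_sup]
    right; right
    simp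
  · rw [NonemptyCompacts.dist_eq]
    refine lt_of_le_of_lt (hausdorffDist_le_of_mem_dist (r := ε / 2) (by positivity) ?_ ?_) (by linarith)
    · intro x hx
      refine ⟨x, ?_, by rw [dist_self]; positivity⟩
      rw [NonemptyCompacts.coe_sup]
      exact Or.inl hx
    · intro x hx
      rw [NonemptyCompacts.coe_sup, NonemptyCompacts.coe_sup] at hx
      rcases hx with hx | hx | hx
      · exact ⟨x, hx, by rw [dist_self]; positivity⟩
      · have : x = a := by simpa using hx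
        rw [this]
        exact ⟨p, hp, hpa⟩
      · have : x = b := by simpa using hx
        rw [this]
        exact ⟨p, hp, hpb⟩

/-- For every nonempty compact `K ⊆ [0,1]` the limit `exp(K)` exists and is unique; its Hausdorff
dimension is positive as soon as `K` contains two distinct nonzero points. Hence the compact sets
with `dim exp(K) = 0` form a meagre set, and those with `dim exp(K) > 0` do not. -/
theorem result :
    (∀ K : NonemptyCompacts (Icc (0:ℝ) 1), ∃! E : NonemptyCompacts ℝ, IsExp (toReal K) E) ∧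
    (∀ (K : NonemptyCompacts (Icc (0:ℝ) 1)) (E : NonemptyCompacts ℝ), IsExp (toReal K) E →
      (∃ x ∈ K, ∃ y ∈ K, (0:ℝ) < (x:ℝ) ∧ (x:ℝ) < y) → 0 < dimH (E : Set ℝ)) ∧
    IsMeagre {K : NonemptyCompacts (Icc (0:ℝ) 1) | ∃ E : NonemptyCompacts ℝ,
      IsExp (toReal K) E ∧ dimH (E : Set ℝ) = 0} ∧
    ¬ IsMeagre {K : NonemptyCompacts (Icc (0:ℝ) 1) | ∃ E : NonemptyCompacts ℝ,
      IsExp (toReal K) E ∧ 0 < dimH (E : Set ℝ)} := by
  have hE : ∀ K : NonemptyCompacts (Icc (0:ℝ) 1), IsExp (toReal K)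
      (expK (toReal K) (toReal_sub K) (toReal_compact K) (toReal_nonempty K)) := fun K =>
    isExp_expK _ _ _ _
  have hdim : ∀ (K : NonemptyCompacts (Icc (0:ℝ) 1)) (E : NonemptyCompacts ℝ), IsExp (toReal K) E →
      (∃ x ∈ K, ∃ y ∈ K, (0:ℝ) < (x:ℝ) ∧ (x:ℝ) < y) → 0 < dimH (E : Set ℝ) := by
    rintro K E hKE ⟨x, hx, y, hy, h0, hxy⟩
    rw [isExp_unique hKE (hE K)]
    exact dim_sums (toReal_sub K) ⟨y, hy, rfl⟩ ⟨x, hx, rfl⟩ h0 hxy
  refine ⟨fun K => ⟨_, hE K, fun E' h' => isExp_unique h' (hE K)⟩, hdim, ?_, ?_⟩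
  · have h1 : IsMeagre (goodᶜ) := by
      unfold IsMeagre
      rw [compl_compl]
      exact residual_of_dense_open good_open good_dense
    refine h1.mono ?_
    rintro K ⟨E, hKE, h0⟩ hgood
    exact absurd (hdim K E hKE hgood) (by rw [h0]; exact lt_irrefl _)
  · intro hm
    have hne : good.Nonempty := by
      obtain ⟨K0⟩ : Nonempty (NonemptyCompacts (Icc (0:ℝ) 1)) := ⟨{⟨0, by simp⟩}⟩
      have : Nonempty (NonemptyCompacts (Icc (0:ℝ) 1)) := ⟨K0⟩
      exact good_dense.nonempty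
    refine not_isMeagre_of_isOpen good_open hne (hm.mono ?_)
    intro K hK
    exact ⟨_, hE K, hdim K _ (hE K) hK⟩

end Pool.Agent.Results.MP_098a03_an.PositiveDimension
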